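import Pool.Agent.Helper57.QZ.Stmts

set_option autoImplicit false

namespace Pool.Agent.Helper93.QZ

open Finset Pool.Agent.Helper57.QZ

theorem tele (ε : ℝ) (hε : 0 < ε) (n : ℕ) (hn : 1 ≤ n) :
    ε * ((n + 1 : ℕ) : ℝ) ^ (-(1 + ε)) ≤ (n : ℝ) ^ (-ε) - ((n + 1 : ℕ) : ℝ) ^ (-ε) := by
  have h0 : (0 : ℝ) < n := by exact_mod_cast hn
  set m : ℝ := ((n + 1 : ℕ) : ℝ) with hm
  have hm' : m = n + 1 := by rw [hm]; push_cast; ring
  have hmp : 0 < m := by rw [hm']; linarith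
  have h1 : (n : ℝ) = m * (1 - 1 / m) := by
    rw [hm']; field_simp; ring
  have h2 : 0 < 1 - 1 / m := by
    have : 1 / m < 1 := by rw [div_lt_one hmp]; linarith
    linarith
  have h3 : 1 + ε / m ≤ (1 - 1 / m) ^ (-ε) := by
    rw [Real.rpow_def_of_pos h2]
    have h4 := Real.log_le_sub_one_of_pos h2
    have h5 : ε / m ≤ Real.log (1 - 1 / m) * -ε := by
      have : Real.log (1 - 1 / m) ≤ -(1 / m) := by linarith
      have h6 : ε / m = -(1 / m) * -ε := by ring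
      rw [h6]
      nlinarith
    have h7 := Real.add_one_le_exp (ε / m)
    have h8 := Real.exp_le_exp.2 h5
    linarith
  have h4 : (n : ℝ) ^ (-ε) = m ^ (-ε) * (1 - 1 / m) ^ (-ε) := by
    rw [h1, Real.mul_rpow hmp.le h2.le]
  have h5 : m ^ (-(1 + ε)) = m ^ (-ε) / m := by
    rw [show -(1 + ε) = -ε - 1 by ring, Real.rpow_sub_one hmp.ne']
  have h6 : 0 < m ^ (-ε) := Real.rpow_pos_of_pos hmp _
  rw [h4, h5]
  have h7 : m ^ (-ε) * (1 + ε / m) ≤ m ^ (-ε) * (1 - 1 / m) ^ (-ε) :=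
    mul_le_mul_of_nonneg_left h3 h6.le
  have h8 : m ^ (-ε) * (1 + ε / m) = m ^ (-ε) + ε * (m ^ (-ε) / m) := by ring
  linarith

theorem tail (ε : ℝ) (hε : 0 < ε) (N M : ℕ) (hN : 1 ≤ N) :
    ∑ n ∈ Ioc N M, (n : ℝ) ^ (-(1 + ε)) ≤ (N : ℝ) ^ (-ε) / ε := by
  have hN0 : (0 : ℝ) < N := by exact_mod_cast hN
  rcases le_total M N with h | h
  · rw [Ioc_eq_empty (by omega), sum_empty]
    positivity
  · have key : ∀ M : ℕ, N ≤ M → ε * ∑ n ∈ Ioc N M, (n : ℝ) ^ (-(1 + ε)) ≤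
        (N : ℝ) ^ (-ε) - (M : ℝ) ^ (-ε) := by
      intro M hM
      induction M, hM using Nat.le_induction with
      | base => simp
      | succ M hM ih =>
        rw [← insert_Ioc_right_eq_Ioc_add_one (by omega), sum_insert (by simp), mul_add]
        have := tele ε hε M (by omega)
        linarith
    have h1 := key M h
    rw [le_div_iff₀ hε]
    have h2 : 0 ≤ (M : ℝ) ^ (-ε) := by positivity
    linarith

theorem sq_sum (N : ℕ) : ∑ n ∈ Icc 1 N, 1 / Real.sqrt n ≤ 2 * Real.sqrt N := by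
  induction N with
  | zero => simp
  | succ N ih =>
    rw [← insert_Icc_right_eq_Icc_add_one (by omega), sum_insert (by simp)]
    have h1 : (0 : ℝ) < ((N + 1 : ℕ) : ℝ) := by positivity
    have hs : 0 < Real.sqrt ((N + 1 : ℕ) : ℝ) := Real.sqrt_pos.2 h1
    have hle : Real.sqrt (N : ℝ) ≤ Real.sqrt ((N + 1 : ℕ) : ℝ) :=
      Real.sqrt_le_sqrt (by push_cast; linarith)
    have hsq1 : Real.sqrt ((N + 1 : ℕ) : ℝ) ^ 2 = N + 1 := by
      rw [Real.sq_sqrt h1.le]; push_cast; ring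
    have hsq2 : Real.sqrt (N : ℝ) ^ 2 = N := Real.sq_sqrt (by positivity)
    have h2 : 1 / Real.sqrt ((N + 1 : ℕ) : ℝ) ≤
        2 * (Real.sqrt ((N + 1 : ℕ) : ℝ) - Real.sqrt (N : ℝ)) := by
      rw [div_le_iff₀ hs]
      nlinarith [Real.sqrt_nonneg (N : ℝ)]
    linarith

/-- `log u ≤ k u^(1/k)` -/
theorem log_le (k : ℕ) (hk : 0 < k) (u : ℝ) (hu : 0 < u) :
    Real.log u ≤ k * u ^ ((1 : ℝ) / k) := by
  have hk' : (0 : ℝ) < k := by exact_mod_cast hk
  have h1 : Real.log (u ^ ((1 : ℝ) / k)) ≤ u ^ ((1 : ℝ) / k) - 1 :=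
    Real.log_le_sub_one_of_pos (Real.rpow_pos_of_pos hu _)
  rw [Real.log_rpow hu] at h1
  have h2 : Real.log u = k * (1 / k * Real.log u) := by field_simp
  rw [h2]
  apply mul_le_mul_of_nonneg_left _ hk'.le
  linarith

/-- `log² u ≤ 16 √u` for `u ≥ 1` -/
theorem log_sq_le (u : ℝ) (hu : 1 ≤ u) : Real.log u ^ 2 ≤ 16 * Real.sqrt u := by
  have h0 : 0 ≤ Real.log u := Real.log_nonneg hu
  have h1 := log_le 4 (by norm_num) u (by linarith)
  have h2 : (u ^ ((1 : ℝ) / (4 : ℕ))) ^ 2 = Real.sqrt u := by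
    rw [← Real.rpow_natCast, ← Real.rpow_mul (by linarith), Real.sqrt_eq_rpow]
    congr 1; norm_num
  have h3 : Real.log u ^ 2 ≤ ((4 : ℕ) * u ^ ((1 : ℝ) / (4 : ℕ))) ^ 2 :=
    pow_le_pow_left₀ h0 h1 2
  rw [mul_pow, h2] at h3
  norm_num at h3
  exact h3

theorem log_sq_le_rpow (ε u : ℝ) (hε : 0 < ε) (hu : 1 ≤ u) :
    Real.log u ^ 2 ≤ 4 / ε ^ 2 * u ^ ε := by
  have hu0 : 0 < u := by linarith
  have h0 : 0 ≤ Real.log u := Real.log_nonneg hu
  have h1 : Real.log (u ^ (ε / 2)) ≤ u ^ (ε / 2) - 1 :=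
    Real.log_le_sub_one_of_pos (Real.rpow_pos_of_pos hu0 _)
  rw [Real.log_rpow hu0] at h1
  have h2 : Real.log u ≤ 2 / ε * u ^ (ε / 2) := by
    have : Real.log u = 2 / ε * (ε / 2 * Real.log u) := by field_simp
    rw [this]
    apply mul_le_mul_of_nonneg_left _ (by positivity)
    linarith
  have h3 : (u ^ (ε / 2)) ^ 2 = u ^ ε := by
    rw [← Real.rpow_natCast, ← Real.rpow_mul hu0.le]
    congr 1; push_cast; ring
  calc Real.log u ^ 2 ≤ (2 / ε * u ^ (ε / 2)) ^ 2 := pow_le_pow_left₀ h0 h2 2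
    _ = 4 / ε ^ 2 * u ^ ε := by rw [mul_pow, h3]; ring

/-- the term -/
theorem term (h4 : ST_VM4) (ε : ℝ) (hε : 0 < ε) (σ z : ℝ) (hσ : 1 / 2 + ε ≤ σ) (hz : 3 ≤ z)
    (n : ℕ) (hn : 2 ≤ n) :
    Bf (Real.log n / Real.log z) (z ^ σ * aa σ n) ≤
      (if (n : ℝ) ≤ Real.sqrt z then 10 * Real.log z else 0) +
      (if (n : ℝ) ≤ z then 160 * Real.sqrt z / Real.log z ^ 2 * (1 / Real.sqrt n) else 0) +
      (if z < (n : ℝ) then 4 / ε ^ 2 * z ^ (1 + ε) / Real.log z ^ 2 * (n : ℝ) ^ (-(1 + ε))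
        else 0) := by
  have hz0 : 0 < z := by linarith
  have hn2 : (2 : ℝ) ≤ n := by exact_mod_cast hn
  have hn0 : (0 : ℝ) < n := by linarith
  have hL1 : 1 < Real.log z := by
    rw [Real.lt_log_iff_exp_lt hz0]
    have := Real.exp_one_lt_d9
    linarith
  have hL0 : 0 < Real.log z := by linarith
  have hln : Real.log 2 ≤ Real.log n := Real.log_le_log (by norm_num) hn2
  have hl2 : 1 / 2 < Real.log 2 := by
    have := Real.log_two_gt_d9
    linarith
  have hln0 : 0 < Real.log n := by linarith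
  have hx : 0 < z ^ σ * aa σ n := by
    unfold aa
    exact mul_pos (Real.rpow_pos_of_pos hz0 _) (Real.rpow_pos_of_pos hn0 _)
  have hA : 0 ≤ (if (n : ℝ) ≤ Real.sqrt z then 10 * Real.log z else 0) := by
    split_ifs
    · positivity
    · exact le_rfl
  have hB : 0 ≤ (if (n : ℝ) ≤ z then
      160 * Real.sqrt z / Real.log z ^ 2 * (1 / Real.sqrt n) else 0) := by
    split_ifs
    · positivity
    · exact le_rfl
  have hC : 0 ≤ (if z < (n : ℝ) then
      4 / ε ^ 2 * z ^ (1 + ε) / Real.log z ^ 2 * (n : ℝ) ^ (-(1 + ε)) else 0) := by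
    split_ifs
    · positivity
    · exact le_rfl
  set κ : ℝ := Real.log n / Real.log z with hκ
  have hκ0 : 0 < κ := by positivity
  rcases le_or_gt (n : ℝ) z with h | h
  · -- n ≤ z
    have hκ1 : κ ≤ 1 := by
      rw [hκ, div_le_one hL0]
      exact Real.log_le_log hn0 h
    have hb := h4.1 κ _ hκ0 hκ1 hx
    rcases le_or_gt (n : ℝ) (Real.sqrt z) with h' | h'
    · have h1 : 5 * (1 - κ) ^ 2 / κ ≤ 10 * Real.log z := by
        rw [div_le_iff₀ hκ0]
        have h2 : (1 - κ) ^ 2 ≤ 1 := by nlinarith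
        have h3 : κ * Real.log z = Real.log n := by rw [hκ]; field_simp
        have h5 : 10 * Real.log z * κ = 10 * Real.log n := by rw [← h3]; ring
        rw [h5]
        linarith
      rw [if_pos h'] at *
      linarith
    · have hk2 : 1 / 2 ≤ κ := by
        rw [hκ, le_div_iff₀ hL0]
        have h1 : Real.log (Real.sqrt z) ≤ Real.log n := Real.log_le_log (Real.sqrt_pos.2 hz0) h'.le
        rw [Real.log_sqrt hz0.le] at h1
        linarith
      have h1 : 5 * (1 - κ) ^ 2 / κ ≤ 10 * (1 - κ) ^ 2 := by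
        rw [div_le_iff₀ hκ0]
        nlinarith [sq_nonneg (1 - κ)]
      have h2 : (1 - κ) ^ 2 = Real.log (z / n) ^ 2 / Real.log z ^ 2 := by
        rw [Real.log_div hz0.ne' hn0.ne', hκ, ← div_pow]
        congr 1
        field_simp
      have h3 := log_sq_le (z / n) (by rw [le_div_iff₀ hn0]; linarith)
      have h5 : Real.sqrt (z / n) = Real.sqrt z * (1 / Real.sqrt n) := by
        rw [Real.sqrt_div hz0.le]; ring
      have h6 : 10 * (1 - κ) ^ 2 ≤ 160 * Real.sqrt z / Real.log z ^ 2 * (1 / Real.sqrt n) := by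
        rw [h2]
        have h7 : Real.log (z / n) ^ 2 / Real.log z ^ 2 ≤
            16 * (Real.sqrt z * (1 / Real.sqrt n)) / Real.log z ^ 2 := by
          apply div_le_div_of_nonneg_right _ (by positivity)
          rw [← h5]; exact h3
        calc 10 * (Real.log (z / n) ^ 2 / Real.log z ^ 2) ≤
            10 * (16 * (Real.sqrt z * (1 / Real.sqrt n)) / Real.log z ^ 2) := by linarith
          _ = 160 * Real.sqrt z / Real.log z ^ 2 * (1 / Real.sqrt n) := by ring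
      rw [if_pos h] at *
      linarith
  · have hκ1 : 1 ≤ κ := by
      rw [hκ, le_div_iff₀ hL0, one_mul]
      exact Real.log_le_log hz0 h.le
    have hb := h4.2 κ _ hκ1 hx.le
    have h1 : (κ - 1) ^ 2 = Real.log (n / z) ^ 2 / Real.log z ^ 2 := by
      rw [Real.log_div hn0.ne' hz0.ne', hκ, ← div_pow]
      congr 1
      field_simp
    have hu : 1 ≤ (n : ℝ) / z := by rw [le_div_iff₀ hz0]; linarith
    have h2 := log_sq_le_rpow ε (n / z) hε hu
    have hxe : z ^ σ * aa σ n = (z / n) ^ σ := by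
      unfold aa
      rw [Real.div_rpow hz0.le hn0.le, Real.rpow_neg hn0.le]
      ring
    have h3 : (z ^ σ * aa σ n) ^ 2 ≤ (z / n) ^ (1 + 2 * ε) := by
      rw [hxe, ← Real.rpow_natCast, ← Real.rpow_mul (by positivity)]
      apply Real.rpow_le_rpow_of_exponent_ge (by positivity)
      · rw [div_le_one hn0]; exact h.le
      · push_cast; linarith
    have h5 : (z / n) ^ (1 + 2 * ε) * ((n : ℝ) / z) ^ ε = z ^ (1 + ε) * (n : ℝ) ^ (-(1 + ε)) := by
      have e1 : ((n : ℝ) / z) ^ ε = (z / n) ^ (-ε) := by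
        rw [Real.rpow_neg (by positivity), ← Real.inv_rpow (by positivity), inv_div]
      rw [e1, ← Real.rpow_add (by positivity), Real.rpow_neg hn0.le,
        show (1 + 2 * ε + -ε) = 1 + ε by ring, Real.div_rpow hz0.le hn0.le]
      ring
    have h6 : (κ - 1) ^ 2 * (z ^ σ * aa σ n) ^ 2 ≤
        4 / ε ^ 2 * z ^ (1 + ε) / Real.log z ^ 2 * (n : ℝ) ^ (-(1 + ε)) := by
      rw [h1]
      calc Real.log (n / z) ^ 2 / Real.log z ^ 2 * (z ^ σ * aa σ n) ^ 2
          ≤ (4 / ε ^ 2 * ((n : ℝ) / z) ^ ε) / Real.log z ^ 2 * (z / n) ^ (1 + 2 * ε) := by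
            apply mul_le_mul _ h3 (by positivity) (by positivity)
            exact div_le_div_of_nonneg_right h2 (by positivity)
        _ = 4 / ε ^ 2 * ((z / n) ^ (1 + 2 * ε) * ((n : ℝ) / z) ^ ε) / Real.log z ^ 2 := by ring
        _ = _ := by rw [h5]; ring
    rw [if_pos h] at *
    linarith

theorem sm4_of (h4 : ST_VM4) : ST_SM4 := by
  intro ε hε
  have hε0 : 0 < ε := hε.1
  refine ⟨2160 + 320 + 8 / ε ^ 3, 3, le_rfl, by positivity, ?_⟩
  intro y σ z hσ hz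
  have hz0 : 0 < z := by linarith
  have hL1 : 1 < Real.log z := by
    rw [Real.lt_log_iff_exp_lt hz0]
    have := Real.exp_one_lt_d9
    linarith
  have hL0 : 0 < Real.log z := by linarith
  set a : ℕ → ℝ := fun n => if (n : ℝ) ≤ Real.sqrt z then 10 * Real.log z else 0 with ha
  set b : ℕ → ℝ := fun n => if (n : ℝ) ≤ z then
    160 * Real.sqrt z / Real.log z ^ 2 * (1 / Real.sqrt n) else 0 with hb
  set c : ℕ → ℝ := fun n => if z < (n : ℝ) then
    4 / ε ^ 2 * z ^ (1 + ε) / Real.log z ^ 2 * (n : ℝ) ^ (-(1 + ε)) else 0 with hc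
  have ha0 : ∀ n, 0 ≤ a n := by
    intro n; simp only [ha]; split_ifs
    · positivity
    · exact le_rfl
  have hb0 : ∀ n, 0 ≤ b n := by
    intro n; simp only [hb]; split_ifs
    · positivity
    · exact le_rfl
  have hc0 : ∀ n, 0 ≤ c n := by
    intro n; simp only [hc]; split_ifs
    · positivity
    · exact le_rfl
  have h1 : ∑ p : Pr y, Bf (Real.log p / Real.log z) (z ^ σ * aa σ p) ≤
      ∑ p : Pr y, (a p + b p + c p) := by
    apply sum_le_sum
    intro p _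
    have hp : Nat.Prime (p : ℕ) := (Nat.mem_primesBelow.1 p.2).2
    exact term h4 ε hε0 σ z hσ.1 hz p hp.two_le
  have h2 : ∑ p : Pr y, (a p + b p + c p) ≤ ∑ n ∈ Icc 1 y, (a n + b n + c n) := by
    have e1 : ∑ p : Pr y, (a p + b p + c p) =
        ∑ n ∈ Nat.primesBelow (y + 1), (a n + b n + c n) :=
      Finset.sum_coe_sort (Nat.primesBelow (y + 1)) (fun n => a n + b n + c n)
    rw [e1]
    apply sum_le_sum_of_subset_of_nonneg
    · intro n hn
      rw [Nat.mem_primesBelow] at hn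
      rw [mem_Icc]
      exact ⟨hn.2.one_le, by omega⟩
    · intro n _ _
      have := ha0 n; have := hb0 n; have := hc0 n
      linarith
  have h3 : ∑ n ∈ Icc 1 y, a n ≤ 10 * Real.log z * Real.sqrt z := by
    simp only [ha]
    rw [← sum_filter, sum_const, nsmul_eq_mul]
    have h5 : (((Icc 1 y).filter (fun n : ℕ => (n : ℝ) ≤ Real.sqrt z)).card : ℝ) ≤ Real.sqrt z := by
      have h6 : (Icc 1 y).filter (fun n : ℕ => (n : ℝ) ≤ Real.sqrt z) ⊆ Icc 1 ⌊Real.sqrt z⌋₊ := by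
        intro n hn
        rw [mem_filter, mem_Icc] at hn
        rw [mem_Icc]
        exact ⟨hn.1.1, Nat.le_floor hn.2⟩
      have h7 := card_le_card h6
      rw [Nat.card_Icc] at h7
      have h8 : (((Icc 1 y).filter (fun n : ℕ => (n : ℝ) ≤ Real.sqrt z)).card : ℝ) ≤
          (⌊Real.sqrt z⌋₊ : ℝ) := by exact_mod_cast h7.trans (by omega)
      exact h8.trans (Nat.floor_le (Real.sqrt_nonneg z))
    calc _ ≤ Real.sqrt z * (10 * Real.log z) :=
          mul_le_mul_of_nonneg_right h5 (by positivity)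
      _ = _ := by ring
  have h5 : ∑ n ∈ Icc 1 y, b n ≤ 320 * z / Real.log z ^ 2 := by
    simp only [hb]
    rw [← sum_filter, ← mul_sum]
    have h6 : (Icc 1 y).filter (fun n : ℕ => (n : ℝ) ≤ z) ⊆ Icc 1 ⌊z⌋₊ := by
      intro n hn
      rw [mem_filter, mem_Icc] at hn
      rw [mem_Icc]
      exact ⟨hn.1.1, Nat.le_floor hn.2⟩
    have h7 : ∑ n ∈ (Icc 1 y).filter (fun n : ℕ => (n : ℝ) ≤ z), 1 / Real.sqrt n ≤
        2 * Real.sqrt z := by
      calc _ ≤ ∑ n ∈ Icc 1 ⌊z⌋₊, 1 / Real.sqrt n :=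
            sum_le_sum_of_subset_of_nonneg h6 (fun n _ _ => by positivity)
        _ ≤ 2 * Real.sqrt (⌊z⌋₊ : ℝ) := sq_sum _
        _ ≤ 2 * Real.sqrt z := by
            have := Real.sqrt_le_sqrt (Nat.floor_le hz0.le)
            linarith
    calc _ ≤ 160 * Real.sqrt z / Real.log z ^ 2 * (2 * Real.sqrt z) :=
          mul_le_mul_of_nonneg_left h7 (by positivity)
      _ = 320 * (Real.sqrt z * Real.sqrt z) / Real.log z ^ 2 := by ring
      _ = 320 * z / Real.log z ^ 2 := by rw [Real.mul_self_sqrt hz0.le]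
  have h6 : ∑ n ∈ Icc 1 y, c n ≤ 8 / ε ^ 3 * z / Real.log z ^ 2 := by
    simp only [hc]
    rw [← sum_filter, ← mul_sum]
    have hfl : 1 ≤ ⌊z⌋₊ := Nat.le_floor (by push_cast; linarith)
    have h7 : (Icc 1 y).filter (fun n : ℕ => z < (n : ℝ)) ⊆ Ioc ⌊z⌋₊ y := by
      intro n hn
      rw [mem_filter, mem_Icc] at hn
      rw [mem_Ioc]
      exact ⟨(Nat.floor_lt hz0.le).2 hn.2, hn.1.2⟩
    have h8 : (z / 2) ≤ (⌊z⌋₊ : ℝ) := by
      have := Nat.lt_floor_add_one z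
      linarith
    have h9 : ((⌊z⌋₊ : ℕ) : ℝ) ^ (-ε) ≤ 2 * z ^ (-ε) := by
      calc ((⌊z⌋₊ : ℕ) : ℝ) ^ (-ε) ≤ (z / 2) ^ (-ε) :=
            Real.rpow_le_rpow_of_nonpos (by positivity) h8 (by linarith)
        _ = z ^ (-ε) * 2 ^ ε := by
            rw [Real.div_rpow hz0.le (by norm_num), Real.rpow_neg (by norm_num : (0:ℝ) ≤ 2)]
            field_simp
        _ ≤ z ^ (-ε) * 2 := by
            apply mul_le_mul_of_nonneg_left _ (by positivity)
            calc (2 : ℝ) ^ ε ≤ 2 ^ (1 : ℝ) :=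
                  Real.rpow_le_rpow_of_exponent_le (by norm_num) (by linarith [hε.2])
              _ = 2 := by norm_num
        _ = 2 * z ^ (-ε) := by ring
    have h10 : ∑ n ∈ (Icc 1 y).filter (fun n : ℕ => z < (n : ℝ)), (n : ℝ) ^ (-(1 + ε)) ≤
        2 * z ^ (-ε) / ε := by
      calc _ ≤ ∑ n ∈ Ioc ⌊z⌋₊ y, (n : ℝ) ^ (-(1 + ε)) :=
            sum_le_sum_of_subset_of_nonneg h7 (fun n _ _ => by positivity)
        _ ≤ ((⌊z⌋₊ : ℕ) : ℝ) ^ (-ε) / ε := tail ε hε0 _ _ hfl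
        _ ≤ _ := div_le_div_of_nonneg_right h9 hε0.le
    have h11 : z ^ (1 + ε) * z ^ (-ε) = z := by
      rw [← Real.rpow_add hz0]
      simp
    calc _ ≤ 4 / ε ^ 2 * z ^ (1 + ε) / Real.log z ^ 2 * (2 * z ^ (-ε) / ε) :=
          mul_le_mul_of_nonneg_left h10 (by positivity)
      _ = 8 / ε ^ 3 * (z ^ (1 + ε) * z ^ (-ε)) / Real.log z ^ 2 := by
          field_simp
          ring
      _ = _ := by rw [h11]
  have h7 : 10 * Real.log z * Real.sqrt z ≤ 2160 * z / Real.log z ^ 2 := by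
    rw [le_div_iff₀ (by positivity)]
    have g1 := log_le 6 (by norm_num) z hz0
    have g2 : (z ^ ((1 : ℝ) / (6 : ℕ))) ^ 3 = Real.sqrt z := by
      rw [← Real.rpow_natCast, ← Real.rpow_mul hz0.le, Real.sqrt_eq_rpow]
      congr 1; norm_num
    have g3 : Real.log z ^ 3 ≤ 216 * Real.sqrt z := by
      have := pow_le_pow_left₀ hL0.le g1 3
      rw [mul_pow, g2] at this
      norm_num at this
      exact this
    calc 10 * Real.log z * Real.sqrt z * Real.log z ^ 2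
        = 10 * Real.log z ^ 3 * Real.sqrt z := by ring
      _ ≤ 10 * (216 * Real.sqrt z) * Real.sqrt z := by
          apply mul_le_mul_of_nonneg_right _ (Real.sqrt_nonneg z)
          linarith
      _ = 2160 * (Real.sqrt z * Real.sqrt z) := by ring
      _ = 2160 * z := by rw [Real.mul_self_sqrt hz0.le]
  calc ∑ p : Pr y, Bf (Real.log p / Real.log z) (z ^ σ * aa σ p)
      ≤ ∑ n ∈ Icc 1 y, (a n + b n + c n) := h1.trans h2
    _ = ∑ n ∈ Icc 1 y, a n + ∑ n ∈ Icc 1 y, b n + ∑ n ∈ Icc 1 y, c n := by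
        rw [sum_add_distrib, sum_add_distrib]
    _ ≤ 2160 * z / Real.log z ^ 2 + 320 * z / Real.log z ^ 2 +
        8 / ε ^ 3 * z / Real.log z ^ 2 := by linarith
    _ = (2160 + 320 + 8 / ε ^ 3) * z / Real.log z ^ 2 := by ring

end Pool.Agent.Helper93.QZ
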